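import Pool.Agent.R619.RA.Defs

/-!
# Arithmetic of relation algebras
-/

set_option autoImplicit false

namespace Pool.Agent.R619.RA

universe u

section

variable {A : Type u} [RelAlg A]

theorem conv_mono {x y : A} (h : x ≤ y) : conv x ≤ conv y := by
  have := RelAlg.conv_sup x y
  rw [sup_eq_right.2 h] at this
  rw [this]
  exact le_sup_left

theorem conv_le_iff {x y : A} : conv x ≤ y ↔ x ≤ conv y := by
  constructor
  · intro h
    have := conv_mono h
    rwa [RelAlg.conv_conv] at this
  · intro h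
    have := conv_mono h
    rwa [RelAlg.conv_conv] at this

theorem conv_le_conv {x y : A} : conv x ≤ conv y ↔ x ≤ y := by
  rw [conv_le_iff, RelAlg.conv_conv]

theorem conv_bot : conv (⊥ : A) = ⊥ := by
  rw [eq_bot_iff, conv_le_iff]
  exact bot_le

theorem conv_top : conv (⊤ : A) = ⊤ := by
  rw [eq_top_iff, ← conv_le_iff]
  exact le_top

theorem conv_eq_bot {x : A} : conv x = ⊥ ↔ x = ⊥ := by
  rw [eq_bot_iff, conv_le_iff, conv_bot, eq_bot_iff]

theorem conv_idr : conv (idr : A) = idr := by
  have h : conv (comp (conv (idr : A)) idr) = comp (conv idr) idr := by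
    rw [RelAlg.conv_comp, RelAlg.conv_conv]
  rw [RelAlg.comp_idr, RelAlg.conv_conv] at h
  exact h.symm

theorem idr_comp (x : A) : comp idr x = x := by
  have h : conv (comp (conv x) idr) = comp idr x := by
    rw [RelAlg.conv_comp, RelAlg.conv_conv, conv_idr]
  rw [RelAlg.comp_idr, RelAlg.conv_conv] at h
  exact h.symm

theorem comp_mono_left {x y : A} (h : x ≤ y) (z : A) : comp x z ≤ comp y z := by
  have := RelAlg.sup_comp x y z
  rw [sup_eq_right.2 h] at this
  rw [this]
  exact le_sup_left

theorem comp_mono_right {x y : A} (z : A) (h : x ≤ y) : comp z x ≤ comp z y := by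
  rw [← conv_le_conv, RelAlg.conv_comp, RelAlg.conv_comp]
  exact comp_mono_left (conv_mono h) _

theorem comp_mono {x y z w : A} (h : x ≤ y) (h' : z ≤ w) : comp x z ≤ comp y w :=
  (comp_mono_left h z).trans (comp_mono_right y h')

theorem gc_left (x y z : A) : comp x y ≤ z ↔ y ≤ (comp (conv x) zᶜ)ᶜ := by
  constructor
  · intro h
    have h1 : comp (conv x) zᶜ ≤ yᶜ :=
      (comp_mono_right _ (compl_le_compl h)).trans (RelAlg.tarski x y)
    exact le_compl_comm.1 h1
  · intro h
    have h1 := RelAlg.tarski (conv x) zᶜ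
    rw [RelAlg.conv_conv, compl_compl] at h1
    exact (comp_mono_right _ h).trans h1

theorem disj_left (x y z : A) : Disjoint (comp x y) z ↔ Disjoint y (comp (conv x) z) := by
  have h := gc_left x y zᶜ
  rw [compl_compl] at h
  rw [← le_compl_iff_disjoint_right, h, le_compl_iff_disjoint_right]

theorem conv_disj {x y : A} : Disjoint (conv x) y ↔ Disjoint x (conv y) := by
  have key : ∀ x y : A, Disjoint (conv x) y → Disjoint x (conv y) := by
    intro x y h
    rw [disjoint_iff_inf_le] at h ⊢
    have h1 : conv (x ⊓ conv y) ≤ conv x ⊓ y := by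
      refine le_inf (conv_mono inf_le_left) ?_
      rw [conv_le_iff]
      exact inf_le_right
    have h2 := h1.trans h
    rw [conv_le_iff, conv_bot] at h2
    exact h2
  refine ⟨key x y, fun h => ?_⟩
  have h1 := (key y x h.symm).symm
  exact h1

theorem disj_right (x y z : A) : Disjoint (comp x y) z ↔ Disjoint x (comp z (conv y)) := by
  have h1 := disj_left (conv y) (conv x) (conv z)
  rw [← RelAlg.conv_comp, conv_disj, RelAlg.conv_conv] at h1
  rw [h1, conv_disj, RelAlg.conv_comp, RelAlg.conv_conv, RelAlg.conv_conv]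

theorem comp_bot (x : A) : comp x ⊥ = ⊥ := by
  rw [eq_bot_iff, gc_left]
  exact bot_le

theorem bot_comp (x : A) : comp ⊥ x = ⊥ := by
  rw [← conv_eq_bot, RelAlg.conv_comp, conv_bot, comp_bot]

theorem le_comp_conv (x : A) : x ≤ comp x (comp (conv x) x) := by
  have key : ∀ z : A, Disjoint (comp z (comp (conv z) z)) z → z = ⊥ := by
    intro z h
    rw [disj_left, disjoint_self] at h
    have h1 : Disjoint (comp z ⊤) z := by
      rw [disj_left, h]
      exact disjoint_bot_right
    have h2 : z ≤ comp z ⊤ := by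
      have := comp_mono_right z (le_top : (idr : A) ≤ ⊤)
      rwa [RelAlg.comp_idr] at this
    exact eq_bot_iff.2 (h1 h2 le_rfl)
  by_contra hx
  have hz := key (x ⊓ (comp x (comp (conv x) x))ᶜ) (by
    refine Disjoint.mono (comp_mono inf_le_left (comp_mono (conv_mono inf_le_left) inf_le_left))
      inf_le_right ?_
    exact disjoint_compl_right)
  apply hx
  rw [← disjoint_iff, disjoint_compl_right_iff] at hz
  exact hz

/-- Elements below the identity are symmetric. -/
theorem conv_of_le_idr {x : A} (h : x ≤ idr) : conv x = x := by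
  have key : ∀ x : A, x ≤ idr → x ≤ conv x := by
    intro x h
    refine (le_comp_conv x).trans ?_
    refine (comp_mono h (comp_mono_right _ h)).trans ?_
    rw [RelAlg.comp_idr, idr_comp]
  refine le_antisymm ?_ (key x h)
  rw [conv_le_iff]
  exact key x h

theorem comp_self_of_le_idr {x : A} (h : x ≤ idr) : comp x x = x := by
  refine le_antisymm ?_ ?_
  · refine (comp_mono_right x h).trans ?_
    rw [RelAlg.comp_idr]
  · refine (le_comp_conv x).trans ?_
    refine (comp_mono_right x (comp_mono_left ((conv_of_le_idr h).le.trans h) x)).trans ?_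
    rw [idr_comp]

theorem comp_le_of_le_idr {e : A} (h : e ≤ idr) (x : A) : comp e x ≤ x := by
  refine (comp_mono_left h x).trans ?_
  rw [idr_comp]

theorem comp_le_of_le_idr' {e : A} (h : e ≤ idr) (x : A) : comp x e ≤ x := by
  refine (comp_mono_right x h).trans ?_
  rw [RelAlg.comp_idr]

/-- If `x ≤ e ; 1` then `e ; x = x`. -/
theorem dom_eq {e x : A} (h : e ≤ idr) (hx : x ≤ comp e ⊤) : comp e x = x := by
  refine le_antisymm (comp_le_of_le_idr h x) ?_
  have h1 : comp e x ⊔ comp (idr ⊓ eᶜ) x = x := by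
    rw [← RelAlg.sup_comp]
    have : e ⊔ idr ⊓ eᶜ = idr := by
      rw [sup_inf_left, sup_compl_eq_top, inf_top_eq, sup_eq_right.2 h]
    rw [this, idr_comp]
  have h2 : comp e (idr ⊓ eᶜ) = ⊥ := by
    have a1 : comp e (idr ⊓ eᶜ) ≤ e := comp_le_of_le_idr' inf_le_left e
    have a2 : comp e (idr ⊓ eᶜ) ≤ eᶜ := (comp_le_of_le_idr h _).trans inf_le_right
    exact eq_bot_iff.2 (disjoint_compl_right a1 a2)
  have h3 : comp (idr ⊓ eᶜ) x = ⊥ := by
    have h4 : Disjoint (comp e ⊤) (comp (idr ⊓ eᶜ) x) := by
      rw [disj_left, conv_of_le_idr h, ← RelAlg.comp_assoc, h2, bot_comp]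
      exact disjoint_bot_right
    exact eq_bot_iff.2 (h4 ((comp_le_of_le_idr inf_le_left x).trans hx) le_rfl)
  rw [h3, sup_bot_eq] at h1
  exact h1.ge

theorem ran_eq {e x : A} (h : e ≤ idr) (hx : x ≤ comp ⊤ e) : comp x e = x := by
  have h1 : comp e (conv x) = conv x := by
    apply dom_eq h
    rw [conv_le_iff, RelAlg.conv_comp, conv_top, conv_of_le_idr h]
    exact hx
  have h2 := congrArg conv h1
  rw [RelAlg.conv_comp, RelAlg.conv_conv, conv_of_le_idr h] at h2
  exact h2

/-- A functional element does not map to complementary elements at the same time. -/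
theorem func_disj {a : A} (h : comp (conv a) a ≤ idr) (r : A) :
    Disjoint (comp a r) (comp a rᶜ) := by
  rw [disj_left, ← RelAlg.comp_assoc]
  exact disjoint_compl_right.mono_right (comp_le_of_le_idr h _)

end

section Atoms

variable {A : Type u} [RelAlg A]

theorem conv_atom {a : A} (h : IsAtom a) : IsAtom (conv a) := by
  refine ⟨fun h0 => h.1 (conv_eq_bot.1 h0), fun b hb => ?_⟩
  have h1 : conv b < a := by
    refine lt_of_le_of_ne (conv_le_iff.2 hb.le) ?_
    rintro rfl
    rw [RelAlg.conv_conv] at hb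
    exact lt_irrefl _ hb
  exact conv_eq_bot.1 (h.2 _ h1)

theorem atom_le {a x : A} (ha : IsAtom a) : a ≤ x ↔ ¬ Disjoint x a := by
  rw [disjoint_comm]
  constructor
  · intro h h'
    exact ha.1 (disjoint_self.1 (h'.mono_right h))
  · intro h
    by_contra h'
    exact h ((ha.not_le_iff_disjoint).1 h')

theorem atom_eq {a b : A} (ha : IsAtom a) (hb : IsAtom b) (h : a ≤ b) : a = b :=
  (hb.le_iff.1 h).resolve_left ha.1

/-- The cycle law for atoms. -/
theorem cyc_right {a b : A} (ha : IsAtom a) (hb : IsAtom b) (r : A) :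
    b ≤ comp a r ↔ a ≤ comp b (conv r) := by
  rw [atom_le hb, disj_right, disjoint_comm, ← atom_le ha]

theorem cyc_left {a b : A} (ha : IsAtom a) (hb : IsAtom b) (r : A) :
    b ≤ comp r a ↔ a ≤ comp (conv r) b := by
  rw [atom_le hb, disj_left, disjoint_comm, ← atom_le ha]

/-- Atomicity. -/
def Atomic (A : Type u) [RelAlg A] : Prop := ∀ x : A, x ≠ ⊥ → ∃ a, IsAtom a ∧ a ≤ x

theorem split_left (hA : Atomic A) {x y c : A} (hc : IsAtom c) (h : c ≤ comp x y) :
    ∃ b, IsAtom b ∧ b ≤ x ∧ c ≤ comp b y := by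
  rw [atom_le hc, disj_right, disjoint_iff] at h
  obtain ⟨b, hb, hb'⟩ := hA _ h
  refine ⟨b, hb, hb'.trans inf_le_left, ?_⟩
  rw [cyc_right hb hc]
  exact hb'.trans inf_le_right

/-- Every atom has a domain, an atom below the identity. -/
theorem exists_dom (hA : Atomic A) {a : A} (ha : IsAtom a) :
    ∃ e, IsAtom e ∧ e ≤ idr ∧ comp e a = a := by
  obtain ⟨e, he, he1, he2⟩ := split_left hA (x := idr) (y := a) ha (by rw [idr_comp])
  exact ⟨e, he, he1, le_antisymm (comp_le_of_le_idr he1 a) he2⟩

theorem exists_ran (hA : Atomic A) {a : A} (ha : IsAtom a) :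
    ∃ e, IsAtom e ∧ e ≤ idr ∧ comp a e = a := by
  obtain ⟨e, he, he1, he2⟩ := exists_dom hA (conv_atom ha)
  refine ⟨e, he, he1, ?_⟩
  have h2 := congrArg conv he2
  rw [RelAlg.conv_comp, RelAlg.conv_conv, conv_of_le_idr he1] at h2
  exact h2

/-- If `e` is the domain of `a` then `e ≤ a ; a˘`. -/
theorem dom_le {e a : A} (he : IsAtom e) (ha : IsAtom a) (h : comp e a = a) :
    e ≤ comp a (conv a) := by
  rw [← cyc_right he ha, h]

theorem ran_le {e a : A} (he : IsAtom e) (ha : IsAtom a) (h : comp a e = a) :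
    e ≤ comp (conv a) a := by
  rw [← cyc_left he ha, h]

/-- If `e` is the range of the functional atom `a` then `a˘ ; a = e`. -/
theorem ran_func {e a : A} (he : IsAtom e) (he1 : e ≤ idr) (ha : IsAtom a) (h : comp a e = a)
    (hf : comp (conv a) a ≤ idr) : comp (conv a) a = e := by
  refine le_antisymm ?_ (ran_le he ha h)
  have h1 : comp e (conv a) = conv a := by
    have := congrArg conv h
    rwa [RelAlg.conv_comp, conv_of_le_idr he1] at this
  rw [← h1, RelAlg.comp_assoc]
  exact comp_le_of_le_idr' hf e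

/-- The composition of functional atoms is an atom. -/
theorem atom_comp (hA : Atomic A) {e f g : A} (he : IsAtom e) (he1 : e ≤ idr)
    (hef : comp e f = f) (hf1 : comp (conv f) f ≤ idr) (hg1 : comp (conv g) g ≤ idr)
    (hne : comp f g ≠ ⊥) : IsAtom (comp f g) := by
  obtain ⟨z, hz, hz1⟩ := hA _ hne
  have hez : comp e z = z := by
    apply dom_eq he1
    refine hz1.trans ?_
    rw [← hef, RelAlg.comp_assoc]
    exact comp_mono_right e le_top
  have h1 : comp f g ≤ z := by
    have a1 : comp f g = comp e (comp f g) := by rw [← RelAlg.comp_assoc, hef]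
    rw [a1]
    refine (comp_mono_left (dom_le he hz hez) _).trans ?_
    rw [RelAlg.comp_assoc]
    refine (comp_mono_right z (comp_mono_left (conv_mono hz1) _)).trans ?_
    rw [RelAlg.conv_comp]
    refine comp_le_of_le_idr' ?_ z
    rw [RelAlg.comp_assoc, ← RelAlg.comp_assoc (conv f) f g]
    exact (comp_mono_right _ (comp_le_of_le_idr hf1 g)).trans hg1
  rw [← le_antisymm hz1 h1]
  exact hz

theorem comp_func {f g : A} (hf1 : comp (conv f) f ≤ idr) (hg1 : comp (conv g) g ≤ idr) :
    comp (conv (comp f g)) (comp f g) ≤ idr := by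
  rw [RelAlg.conv_comp, RelAlg.comp_assoc, ← RelAlg.comp_assoc (conv f) f g]
  exact (comp_mono_right _ (comp_le_of_le_idr hf1 g)).trans hg1

/-- Composable atoms have a nonzero composition. -/
theorem comp_ne_bot {e f g : A} (he : IsAtom e) (hf : IsAtom f) (hg : IsAtom g)
    (h1 : comp f e = f) (h2 : comp e g = g) : comp f g ≠ ⊥ := by
  intro h
  have h3 : f ≤ comp (comp f g) (conv g) := by
    rw [RelAlg.comp_assoc]
    refine h1.ge.trans (comp_mono_right f (dom_le he hg h2))
  rw [h, bot_comp] at h3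
  exact hf.1 (eq_bot_iff.2 h3)

end Atoms

end Pool.Agent.R619.RA
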