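import Mathlib

/-!
# Relation algebras, their first-order language, and the relation algebras of `Z_p`-sets
-/

set_option autoImplicit false

namespace Pool.Agent.R619.RA

open FirstOrder

universe u v w

/-- Relation algebras in Tarski's sense: a Boolean algebra with composition `x ; y`, converse and
the identity element `1'`, satisfying Tarski's axioms. -/
class RelAlg (A : Type u) extends BooleanAlgebra A where
  /-- composition `x ; y` -/
  comp : A → A → A
  /-- converse -/
  conv : A → A
  /-- the identity element `1'` -/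
  idr : A
  comp_assoc : ∀ x y z : A, comp (comp x y) z = comp x (comp y z)
  sup_comp : ∀ x y z : A, comp (x ⊔ y) z = comp x z ⊔ comp y z
  comp_idr : ∀ x : A, comp x idr = x
  conv_conv : ∀ x : A, conv (conv x) = x
  conv_sup : ∀ x y : A, conv (x ⊔ y) = conv x ⊔ conv y
  conv_comp : ∀ x y : A, conv (comp x y) = comp (conv y) (conv x)
  tarski : ∀ x y : A, comp (conv x) (comp x y)ᶜ ≤ yᶜ

export RelAlg (comp conv idr)

/-- The operation symbols `0, 1, 1', complement, converse, +, ·, ;`. -/
inductive Sym : ℕ → Type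
  | bot : Sym 0
  | top : Sym 0
  | idr : Sym 0
  | compl : Sym 1
  | conv : Sym 1
  | sup : Sym 2
  | inf : Sym 2
  | comp : Sym 2

/-- The first-order language of relation algebras. -/
def raLang : FirstOrder.Language.{0, 0} := ⟨Sym, fun _ => Empty⟩

/-- Interpretation of the operation symbols in a relation algebra. -/
def interp (A : Type u) [RelAlg A] : ∀ {n : ℕ}, Sym n → (Fin n → A) → A
  | _, .bot, _ => ⊥
  | _, .top, _ => ⊤
  | _, .idr, _ => idr
  | _, .compl, v => (v 0)ᶜ
  | _, .conv, v => conv (v 0)
  | _, .sup, v => v 0 ⊔ v 1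
  | _, .inf, v => v 0 ⊓ v 1
  | _, .comp, v => comp (v 0) (v 1)

/-- A relation algebra as a first-order structure. -/
instance raStructure (A : Type u) [RelAlg A] : raLang.Structure A where
  funMap := fun {_} f v => interp A f v
  RelMap := fun {_} r _ => (r : Empty).elim

/-- Isomorphisms of relation algebras. -/
structure RelAlgIso (A : Type u) (B : Type v) [RelAlg A] [RelAlg B] extends A ≃o B where
  map_comp : ∀ x y : A, toFun (comp x y) = comp (toFun x) (toFun y)
  map_conv : ∀ x : A, toFun (conv x) = conv (toFun x)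
  map_idr : toFun idr = idr

/-- The Boolean algebra of the compatible binary relations on a `G`-set `X`. -/
def CRel (G : Type v) (X : Type u) [Group G] [MulAction G X] : BooleanSubalgebra (Set (X × X)) where
  carrier := {R | ∀ (g : G) (x y : X), (x, y) ∈ R → (g • x, g • y) ∈ R}
  supClosed' := by
    intro R hR S hS g x y h
    rcases h with h | h
    · exact Or.inl (hR g x y h)
    · exact Or.inr (hS g x y h)
  infClosed' := by
    intro R hR S hS g x y h
    exact ⟨hR g x y h.1, hS g x y h.2⟩
  compl_mem' := by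
    intro R hR g x y h h'
    apply h
    have := hR g⁻¹ _ _ h'
    simpa using this
  bot_mem' := by
    intro g x y h
    exact h.elim

/-- The relation algebra of the compatible binary relations on a `G`-set `X`. -/
instance relRelAlg (G : Type v) (X : Type u) [Group G] [MulAction G X] : RelAlg (CRel G X) where
  comp R S := ⟨{q | ∃ z, (q.1, z) ∈ R.1 ∧ (z, q.2) ∈ S.1}, by
    rintro g x y ⟨z, h1, h2⟩
    exact ⟨g • z, R.2 g _ _ h1, S.2 g _ _ h2⟩⟩
  conv R := ⟨{q | (q.2, q.1) ∈ R.1}, by
    intro g x y h
    exact R.2 g _ _ h⟩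
  idr := ⟨{q | q.1 = q.2}, by
    intro g x y h
    exact congrArg (g • ·) h⟩
  comp_assoc R S T := by
    apply Subtype.ext; ext ⟨x, y⟩
    constructor
    · rintro ⟨z, ⟨w, h1, h2⟩, h3⟩
      exact ⟨w, h1, z, h2, h3⟩
    · rintro ⟨w, h1, z, h2, h3⟩
      exact ⟨z, ⟨w, h1, h2⟩, h3⟩
  sup_comp R S T := by
    apply Subtype.ext; ext ⟨x, y⟩
    constructor
    · rintro ⟨z, h1 | h1, h2⟩
      · exact Or.inl ⟨z, h1, h2⟩
      · exact Or.inr ⟨z, h1, h2⟩
    · rintro (⟨z, h1, h2⟩ | ⟨z, h1, h2⟩)
      · exact ⟨z, Or.inl h1, h2⟩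
      · exact ⟨z, Or.inr h1, h2⟩
  comp_idr R := by
    apply Subtype.ext; ext ⟨x, y⟩
    constructor
    · rintro ⟨z, h1, h2⟩
      have h2' : z = y := h2
      subst h2'
      exact h1
    · intro h
      exact ⟨y, h, rfl⟩
  conv_conv R := rfl
  conv_sup R S := rfl
  conv_comp R S := by
    apply Subtype.ext; ext ⟨x, y⟩
    constructor
    · rintro ⟨z, h1, h2⟩
      exact ⟨z, h2, h1⟩
    · rintro ⟨z, h1, h2⟩
      exact ⟨z, h2, h1⟩
  tarski R S := by
    rintro ⟨x, y⟩ ⟨z, h1, h2⟩ h3
    exact h2 ⟨x, h1, h3⟩

/-- The class `K_p`: the relation algebras isomorphic to the algebra of compatible relations of a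
nonempty set with an action (not necessarily faithful) of the cyclic group of order `p`. -/
def InK (p : ℕ) (A : Type u) [RelAlg A] : Prop :=
  ∃ (X : Type u) (_ : Nonempty X) (_ : MulAction (Multiplicative (ZMod p)) X),
    Nonempty (RelAlgIso A (CRel (Multiplicative (ZMod p)) X))

end Pool.Agent.R619.RA
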