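import Pool.Agent.R619.RA.Repr

/-!
# The relation algebra of a `Z_p`-set satisfies the conditions
-/

set_option autoImplicit false

namespace Pool.Agent.R619.RA

universe u

section

variable {H : Type} [Group H] {X : Type u} [MulAction H X]

/-- The orbit of a pair. -/
def orb (H : Type) [Group H] {X : Type u} [MulAction H X] (x y : X) : CRel H X :=
  ⟨{q | ∃ h : H, q = (h • x, h • y)}, by
    rintro g a b ⟨h, hh⟩
    refine ⟨g * h, ?_⟩
    rw [Prod.mk.injEq] at hh
    rw [hh.1, hh.2, mul_smul, mul_smul]⟩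

theorem mem_orb (x y : X) : (x, y) ∈ (orb H x y).1 := ⟨1, by simp⟩

theorem orb_le {R : CRel H X} {x y : X} (h : (x, y) ∈ R.1) : orb H x y ≤ R := by
  rintro q ⟨g, rfl⟩
  exact R.2 g _ _ h

theorem ne_bot_iff {R : CRel H X} : R ≠ ⊥ ↔ ∃ x y, (x, y) ∈ R.1 := by
  constructor
  · intro h
    by_contra hcon
    push Not at hcon
    apply h
    apply Subtype.ext
    ext ⟨x, y⟩
    constructor
    · intro hx; exact (hcon x y hx).elim
    · intro hx; exact hx.elim
  · rintro ⟨x, y, h⟩ rfl
    exact h.elim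

theorem orb_atom (x y : X) : IsAtom (orb H x y) := by
  refine ⟨ne_bot_iff.2 ⟨x, y, mem_orb x y⟩, ?_⟩
  intro R hR
  by_contra hne
  obtain ⟨a, b, hab⟩ := ne_bot_iff.1 hne
  obtain ⟨h, hh⟩ := hR.le hab
  rw [Prod.mk.injEq] at hh
  have h1 : (x, y) ∈ R.1 := by
    have := R.2 h⁻¹ _ _ hab
    rw [hh.1, hh.2, inv_smul_smul, inv_smul_smul] at this
    exact this
  exact absurd (orb_le h1) (not_le_of_gt hR)

theorem eq_orb {R : CRel H X} (hR : IsAtom R) {x y : X} (h : (x, y) ∈ R.1) : R = orb H x y :=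
  (atom_eq (orb_atom x y) hR (orb_le h)).symm

theorem fixed_or_free (hp : (Nat.card H).Prime) (x : X) :
    (∀ h : H, h • x = x) ∨ (∀ h : H, h • x = x → h = 1) := by
  have : Fact (Nat.card H).Prime := ⟨hp⟩
  rcases Subgroup.eq_bot_or_eq_top_of_prime_card (MulAction.stabilizer H x) with h | h
  · right
    intro g hg
    have : g ∈ MulAction.stabilizer H x := hg
    rw [h, Subgroup.mem_bot] at this
    exact this
  · left
    intro g
    have : g ∈ MulAction.stabilizer H x := by rw [h]; exact Subgroup.mem_top g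
    exact this

theorem good_rel {p : ℕ} (hp : p.Prime) (hc : Nat.card H = p) [Nonempty X] :
    Good p (CRel H X) := by
  have hp' : (Nat.card H).Prime := by rw [hc]; exact hp
  have hfinH : Finite H := Nat.finite_of_card_ne_zero hp'.ne_zero
  refine ⟨?_, ?_, ?_, ?_, ?_⟩
  · intro h
    obtain ⟨x⟩ := ‹Nonempty X›
    have : (x, x) ∈ (⊤ : CRel H X).1 := trivial
    rw [← h] at this
    exact this.elim
  · intro R hR
    obtain ⟨x, y, hxy⟩ := ne_bot_iff.1 hR
    apply Subtype.ext
    ext ⟨a, b⟩
    constructor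
    · intro _; trivial
    · intro _; exact ⟨x, trivial, y, hxy, trivial⟩
  · intro R hR
    obtain ⟨x, y, hxy⟩ := ne_bot_iff.1 hR
    exact ⟨orb H x y, orb_atom x y, orb_le hxy⟩
  · intro R hR
    obtain ⟨x, y, hxy⟩ := ne_bot_iff.1 hR.1
    rw [eq_orb hR hxy]
    rcases fixed_or_free hp' x with hx | hx
    · right
      rintro ⟨a, b⟩ ⟨z, ⟨h1, hh1⟩, ⟨h2, hh2⟩⟩
      rw [Prod.mk.injEq] at hh1 hh2
      show a = b
      have e1 : a = h1 • x := hh1.1
      have e2 : b = h2 • x := hh2.1
      rw [e1, e2, hx, hx]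
    · left
      rintro ⟨a, b⟩ ⟨z, ⟨h1, hh1⟩, ⟨h2, hh2⟩⟩
      rw [Prod.mk.injEq] at hh1 hh2
      show a = b
      have e1 : z = h1 • x := hh1.1
      have e2 : z = h2 • x := hh2.1
      have e3 : a = h1 • y := hh1.2
      have e4 : b = h2 • y := hh2.2
      have e5 : (h2⁻¹ * h1) • x = x := by
        rw [mul_smul, ← e1, e2, inv_smul_smul]
      have e6 := hx _ e5
      have e7 : h1 = h2 := by
        have := congrArg (h2 * ·) e6
        simpa using this
      rw [e3, e4, e7]
  · intro E hE hE1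
    obtain ⟨x, y, hxy⟩ := ne_bot_iff.1 hE.1
    have hy : x = y := hE1 hxy
    subst hy
    have hEo := eq_orb hE hxy
    subst hEo
    have hmid : ∀ a b : X, (a, b) ∈ (comp (orb H x x) (comp ⊤ (orb H x x))).1 ↔
        ∃ h k : H, a = h • x ∧ b = k • x := by
      intro a b
      constructor
      · rintro ⟨z, ⟨h, hh⟩, ⟨w, -, ⟨k, hk⟩⟩⟩
        rw [Prod.mk.injEq] at hh hk
        exact ⟨h, k, hh.1, hk.2⟩
      · rintro ⟨h, k, rfl, rfl⟩
        exact ⟨h • x, ⟨h, rfl⟩, k • x, trivial, ⟨k, rfl⟩⟩
    rcases fixed_or_free hp' x with hx | hx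
    · left
      apply Subtype.ext
      ext ⟨a, b⟩
      rw [hmid]
      constructor
      · rintro ⟨h, k, rfl, rfl⟩
        refine ⟨1, ?_⟩
        rw [hx, hx, hx]
      · rintro ⟨h, hh⟩
        rw [Prod.mk.injEq] at hh
        exact ⟨h, h, hh.1, hh.2⟩
    · right
      have e : Fin p ≃ H := by
        have := Finite.equivFin H
        rw [hc] at this
        exact this.symm
      refine ⟨fun i => orb H x (e i • x), ?_, ?_, ?_⟩
      · intro i j hij
        have h1 : (x, e j • x) ∈ (orb H x (e i • x)).1 := by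
          have : orb H x (e i • x) = orb H x (e j • x) := hij
          rw [this]
          exact mem_orb _ _
        obtain ⟨h, hh⟩ := h1
        rw [Prod.mk.injEq] at hh
        have h2 : h = 1 := hx h hh.1.symm
        have h3 : e j • x = e i • x := by
          have := hh.2
          rwa [h2, one_smul] at this
        have h4 : ((e i)⁻¹ * e j) • x = x := by
          rw [mul_smul, h3, inv_smul_smul]
        have h5 := hx _ h4
        have h6 : e j = e i := by
          have := congrArg (e i * ·) h5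
          simpa using this
        exact (e.injective h6).symm
      · intro i
        refine ⟨orb_atom _ _, ?_⟩
        apply orb_le
        rw [hmid]
        exact ⟨1, e i, (one_smul H x).symm, rfl⟩
      · intro Y hY
        obtain ⟨a, b, hab⟩ := ne_bot_iff.1 hY.1.1
        obtain ⟨h, k, h1, h2⟩ := (hmid a b).1 (hY.2 hab)
        have h3 : (x, (h⁻¹ * k) • x) ∈ Y.1 := by
          have := Y.2 h⁻¹ _ _ hab
          rw [h1, h2, inv_smul_smul, ← mul_smul] at this
          exact this
        refine ⟨e.symm (h⁻¹ * k), ?_⟩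
        show Y = orb H x (e (e.symm (h⁻¹ * k)) • x)
        rw [Equiv.apply_symm_apply]
        exact eq_orb hY.1 h3

end

end Pool.Agent.R619.RA
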