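import Pool.Agent.R619.RA.Basic

/-!
# The group of an identity atom
-/

set_option autoImplicit false

namespace Pool.Agent.R619.RA

universe u

section

variable {A : Type u} [RelAlg A]

/-- The atoms below `e ; 1 ; e`. -/
def GSet (e : A) : Set A := {g | IsAtom g ∧ g ≤ comp e (comp ⊤ e)}

theorem gset_dom {e g : A} (he1 : e ≤ idr) (hg : g ∈ GSet e) : comp e g = g :=
  dom_eq he1 (hg.2.trans (comp_mono_right e le_top))

theorem gset_ran {e g : A} (he1 : e ≤ idr) (hg : g ∈ GSet e) : comp g e = g := by
  apply ran_eq he1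
  refine hg.2.trans ?_
  rw [← RelAlg.comp_assoc]
  exact comp_mono_left le_top e

theorem mem_gset {e g : A} (hg : IsAtom g) (h1 : comp e g = g) (h2 : comp g e = g) :
    g ∈ GSet e := by
  refine ⟨hg, ?_⟩
  calc g = comp e (comp g e) := by rw [h2, h1]
    _ ≤ comp e (comp ⊤ e) := comp_mono_right e (comp_mono_left le_top e)

theorem gset_self {e : A} (he : IsAtom e) (he1 : e ≤ idr) : e ∈ GSet e :=
  mem_gset he (comp_self_of_le_idr he1) (comp_self_of_le_idr he1)

theorem gset_conv {e g : A} (he1 : e ≤ idr) (hg : g ∈ GSet e) : conv g ∈ GSet e := by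
  refine mem_gset (conv_atom hg.1) ?_ ?_
  · have := congrArg conv (gset_ran he1 hg)
    rwa [RelAlg.conv_comp, conv_of_le_idr he1] at this
  · have := congrArg conv (gset_dom he1 hg)
    rwa [RelAlg.conv_comp, conv_of_le_idr he1] at this

theorem gset_comp (hA : Atomic A) {e f g : A} (he : IsAtom e) (he1 : e ≤ idr)
    (hf : f ∈ GSet e) (hg : g ∈ GSet e) (hf1 : comp (conv f) f ≤ idr)
    (hg1 : comp (conv g) g ≤ idr) : comp f g ∈ GSet e := by
  refine mem_gset ?_ ?_ ?_
  · exact atom_comp hA he he1 (gset_dom he1 hf) hf1 hg1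
      (comp_ne_bot he hf.1 hg.1 (gset_ran he1 hf) (gset_dom he1 hg))
  · rw [← RelAlg.comp_assoc, gset_dom he1 hf]
  · rw [RelAlg.comp_assoc, gset_ran he1 hg]

/-- If there are finitely many atoms below `e ; 1 ; e` and each of them or its converse is a
function, then all of them are functions. -/
theorem gset_func (hA : Atomic A) {e : A} (he : IsAtom e) (he1 : e ≤ idr)
    (hfin : (GSet e).Finite)
    (hfun : ∀ g ∈ GSet e, comp (conv g) g ≤ idr ∨ comp g (conv g) ≤ idr) :
    ∀ g ∈ GSet e, comp (conv g) g ≤ idr := by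
  have key : ∀ g ∈ GSet e, comp (conv g) g ≤ idr → comp g (conv g) ≤ idr := by
    intro g hg hg1
    let F := {f : A // f ∈ GSet e ∧ comp (conv f) f ≤ idr}
    have : Finite F := (hfin.subset (fun f (hf : f ∈ GSet e ∧ comp (conv f) f ≤ idr) => hf.1)).to_subtype
    let L : F → F := fun f => ⟨comp g f.1, gset_comp hA he he1 hg f.2.1 hg1 f.2.2,
      comp_func hg1 f.2.2⟩
    have hge : comp (conv g) g = e := ran_func he he1 hg.1 (gset_ran he1 hg) hg1
    have hL : Function.Injective L := by
      intro f f' h
      have h1 : comp g f.1 = comp g f'.1 := congrArg Subtype.val h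
      have h2 := congrArg (comp (conv g)) h1
      rw [← RelAlg.comp_assoc, ← RelAlg.comp_assoc, hge, gset_dom he1 f.2.1,
        gset_dom he1 f'.2.1] at h2
      exact Subtype.ext h2
    have hS := Finite.surjective_of_injective hL
    obtain ⟨h, hh⟩ := hS ⟨e, gset_self he he1, by
      rw [conv_of_le_idr he1, comp_self_of_le_idr he1]; exact he1⟩
    have hh1 : comp g h.1 = e := congrArg Subtype.val hh
    have h3 : conv g = h.1 := by
      have h4 := congrArg (comp (conv g)) hh1
      rw [← RelAlg.comp_assoc, hge, gset_dom he1 h.2.1, gset_ran he1 (gset_conv he1 hg)] at h4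
      exact h4.symm
    have h5 := h.2.2
    rw [← h3, RelAlg.conv_conv] at h5
    exact h5
  intro g hg
  rcases hfun g hg with h | h
  · exact h
  · have h1 := key (conv g) (gset_conv he1 hg) (by rw [RelAlg.conv_conv]; exact h)
    rwa [RelAlg.conv_conv] at h1

/-- The group structure on the atoms below `e ; 1 ; e`. -/
@[reducible] noncomputable def gsetGroup (hA : Atomic A) {e : A} (he : IsAtom e) (he1 : e ≤ idr)
    (hfun : ∀ g ∈ GSet e, comp (conv g) g ≤ idr) : Group (GSet e) :=
  letI : Mul (GSet e) := ⟨fun f g =>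
    ⟨comp f.1 g.1, gset_comp hA he he1 f.2 g.2 (hfun _ f.2) (hfun _ g.2)⟩⟩
  letI : One (GSet e) := ⟨⟨e, gset_self he he1⟩⟩
  letI : Inv (GSet e) := ⟨fun g => ⟨conv g.1, gset_conv he1 g.2⟩⟩
  Group.ofLeftAxioms
    (fun a b c => Subtype.ext (RelAlg.comp_assoc a.1 b.1 c.1))
    (fun a => Subtype.ext (gset_dom he1 a.2))
    (fun a => Subtype.ext (ran_func he he1 a.2.1 (gset_ran he1 a.2) (hfun _ a.2)))

/-- `e` is an identity atom of the first kind. -/
def First (e : A) : Prop := comp e (comp ⊤ e) = e

theorem func_of_first {e a : A} (he1 : e ≤ idr) (hF : First e) (h : comp a e = a) :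
    comp (conv a) a ≤ idr := by
  have h1 : comp e (conv a) = conv a := by
    have := congrArg conv h
    rwa [RelAlg.conv_comp, conv_of_le_idr he1] at this
  calc comp (conv a) a = comp e (comp (comp (conv a) a) e) := by
        rw [RelAlg.comp_assoc, h, ← RelAlg.comp_assoc, h1]
    _ ≤ comp e (comp ⊤ e) := comp_mono_right e (comp_mono_left le_top e)
    _ = e := hF
    _ ≤ idr := he1

/-- If both ends are of the second kind, an atom with functional converse is functional. -/
theorem func_of_second (hA : Atomic A) {p : ℕ} (hp : p.Prime) {e e' a : A}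
    (he : IsAtom e) (he1 : e ≤ idr) (he' : IsAtom e') (he1' : e' ≤ idr)
    (hc : Nat.card (GSet e) = p) (hc' : Nat.card (GSet e') = p)
    (hfun' : ∀ g ∈ GSet e', comp (conv g) g ≤ idr)
    (ha : IsAtom a) (h1 : comp e a = a) (h2 : comp a e' = a)
    (hconv : comp a (conv a) ≤ idr) : comp (conv a) a ≤ idr := by
  have hconv' : comp a (conv a) = e := by
    have h3 : comp (conv a) e = conv a := by
      have := congrArg conv h1
      rwa [RelAlg.conv_comp, conv_of_le_idr he1] at this
    have := ran_func he he1 (conv_atom ha) h3 (by rwa [RelAlg.conv_conv])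
    rwa [RelAlg.conv_conv] at this
  have h2' : comp e' (conv a) = conv a := by
    have := congrArg conv h2
    rwa [RelAlg.conv_comp, conv_of_le_idr he1'] at this
  letI := gsetGroup hA he' he1' hfun'
  have hmul : ∀ f g : GSet e', (f * g).1 = comp f.1 g.1 := fun _ _ => rfl
  have hinv : ∀ f : GSet e', (f⁻¹).1 = conv f.1 := fun _ => rfl
  have hone : (1 : GSet e').1 = e' := rfl
  have : Fact p.Prime := ⟨hp⟩
  let K : Subgroup (GSet e') :=
    { carrier := {k | comp a k.1 = a}
      mul_mem' := by
        intro f g hf hg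
        show comp a (f * g).1 = a
        rw [hmul, ← RelAlg.comp_assoc, hf, hg]
      one_mem' := h2
      inv_mem' := by
        intro f hf
        show comp a (f⁻¹).1 = a
        have hf' : comp a f.1 = a := hf
        have h5 : comp f.1 (f⁻¹).1 = e' := by
          rw [← hmul, mul_inv_cancel, hone]
        calc comp a (f⁻¹).1 = comp (comp a f.1) (f⁻¹).1 := by rw [hf']
          _ = a := by rw [RelAlg.comp_assoc, h5, h2] }
  have hK : ∀ k : GSet e', k.1 ≤ comp (conv a) a → k ∈ K := by
    intro k hk
    show comp a k.1 = a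
    have h3 : comp a k.1 ≤ a := by
      refine (comp_mono_right a hk).trans ?_
      rw [← RelAlg.comp_assoc, hconv', h1]
    have h4 : comp a k.1 ≠ ⊥ :=
      comp_ne_bot he' ha k.2.1 h2 (gset_dom he1' k.2)
    exact (ha.le_iff.1 h3).resolve_left h4
  have hK' : ∀ k : GSet e', k ∈ K → k.1 ≤ comp (conv a) a := by
    intro k hk
    have hk' : comp a k.1 = a := hk
    have h3 := cyc_left k.2.1 ha a
    rw [← h3, hk']
  have hcard : (Nat.card (GSet e')).Prime := by rw [hc']; exact hp
  rcases @Subgroup.eq_bot_or_eq_top_of_prime_card (GSet e') _ K ⟨hcard⟩ with hb | ht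
  · -- all atoms below `a˘ ; a` are equal to `e'`
    by_contra hcon
    have h3 : comp (conv a) a ⊓ idrᶜ ≠ ⊥ := by
      intro h4
      apply hcon
      rw [← disjoint_iff, disjoint_compl_right_iff] at h4
      exact h4
    obtain ⟨k, hk, hk1⟩ := hA _ h3
    have hk2 : k ∈ GSet e' := by
      refine ⟨hk, hk1.trans (inf_le_left.trans ?_)⟩
      calc comp (conv a) a = comp e' (comp (comp (conv a) a) e') := by
            rw [RelAlg.comp_assoc, h2, ← RelAlg.comp_assoc, h2']
        _ ≤ comp e' (comp ⊤ e') := comp_mono_right e' (comp_mono_left le_top e')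
    have hk3 := hK ⟨k, hk2⟩ (hk1.trans inf_le_left)
    rw [hb, Subgroup.mem_bot] at hk3
    have hk4 : k = e' := congrArg Subtype.val hk3
    have hk5 : k ≤ idr := hk4 ▸ he1'
    exact hk.1 (eq_bot_iff.2 (disjoint_compl_right hk5 (hk1.trans inf_le_right)))
  · exfalso
    have h3 : ∀ g ∈ GSet e, g = e := by
      intro g hg
      have h4 : comp (comp (conv a) g) a ≤ comp (conv a) a := by
        by_contra hcon
        have h5 : comp (comp (conv a) g) a ⊓ (comp (conv a) a)ᶜ ≠ ⊥ := by
          intro h4
          apply hcon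
          rw [← disjoint_iff, disjoint_compl_right_iff] at h4
          exact h4
        obtain ⟨k, hk, hk1⟩ := hA _ h5
        have hk2 : k ∈ GSet e' := by
          refine ⟨hk, hk1.trans (inf_le_left.trans ?_)⟩
          calc comp (comp (conv a) g) a
              = comp e' (comp (comp (comp (conv a) g) a) e') := by
                rw [RelAlg.comp_assoc, RelAlg.comp_assoc, RelAlg.comp_assoc, h2,
                  ← RelAlg.comp_assoc e', h2']
            _ ≤ comp e' (comp ⊤ e') := comp_mono_right e' (comp_mono_left le_top e')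
        have hk3 := hK' ⟨k, hk2⟩ (by rw [ht]; exact Subgroup.mem_top _)
        exact hk.1 (eq_bot_iff.2 (disjoint_compl_right hk3 (hk1.trans inf_le_right)))
      have h5 : g ≤ e := by
        calc g = comp (comp e g) e := by rw [gset_dom he1 hg, gset_ran he1 hg]
          _ = comp a (comp (comp (comp (conv a) g) a) (conv a)) := by
            rw [← hconv']; simp only [RelAlg.comp_assoc]
          _ ≤ comp a (comp (comp (conv a) a) (conv a)) :=
            comp_mono_right a (comp_mono_left h4 _)
          _ = e := by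
            rw [RelAlg.comp_assoc, ← RelAlg.comp_assoc a, hconv', comp_self_of_le_idr he1]
      exact atom_eq hg.1 he h5
    have hsub : (GSet e).Subsingleton := fun x hx y hy => (h3 x hx).trans (h3 y hy).symm
    have := hsub.coe_sort
    have h6 : Nat.card (GSet e) ≤ 1 := Finite.card_le_one_iff_subsingleton.2 this
    have := hp.one_lt
    omega

end

end Pool.Agent.R619.RA
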