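import Pool.Agent.R619.RA.Grp

/-!
# Representation of complete relation algebras over `Z_p`
-/

set_option autoImplicit false

namespace Pool.Agent.R619.RA

universe u

section

variable {A : Type u} [RelAlg A]

/-- The first-order conditions. -/
structure Good (p : ℕ) (A : Type u) [RelAlg A] : Prop where
  nontriv : (⊥ : A) ≠ ⊤
  simple : ∀ x : A, x ≠ ⊥ → comp ⊤ (comp x ⊤) = ⊤
  atomic : Atomic A
  func : ∀ a : A, IsAtom a → comp (conv a) a ≤ idr ∨ comp a (conv a) ≤ idr
  idat : ∀ e : A, IsAtom e → e ≤ idr → First e ∨ ∃ f : Fin p → A,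
    Function.Injective f ∧ (∀ i, f i ∈ GSet e) ∧ ∀ y ∈ GSet e, ∃ i, y = f i

theorem Good.second {p : ℕ} (hp : p.Prime) (h : Good p A) {e : A} (he : IsAtom e)
    (he1 : e ≤ idr) (hF : ¬ First e) : Nat.card (GSet e) = p ∧ ∀ g ∈ GSet e, comp (conv g) g ≤ idr := by
  obtain ⟨f, hf1, hf2, hf3⟩ := (h.idat e he he1).resolve_left hF
  have hc : Nat.card (GSet e) = p := by
    have hbij : Function.Bijective (fun i : Fin p => (⟨f i, hf2 i⟩ : GSet e)) := by
      refine ⟨fun i j hij => hf1 (congrArg Subtype.val hij), fun y => ?_⟩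
      obtain ⟨i, hi⟩ := hf3 y.1 y.2
      exact ⟨i, Subtype.ext hi.symm⟩
    rw [← Nat.card_eq_of_bijective _ hbij, Nat.card_fin]
  refine ⟨hc, ?_⟩
  have hfin : (GSet e).Finite := by
    apply Set.finite_coe_iff.1
    exact Nat.finite_of_card_ne_zero (by rw [hc]; exact hp.ne_zero)
  exact gset_func h.atomic he he1 hfin (fun g hg => h.func g hg.1)

theorem Good.dom_func {p : ℕ} (hp : p.Prime) (h : Good p A) {e : A} (he : IsAtom e)
    (he1 : e ≤ idr) (hF : ¬ First e) {a : A} (ha : IsAtom a) (h1 : comp e a = a) :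
    comp (conv a) a ≤ idr := by
  obtain ⟨e', he', he1', h2⟩ := exists_ran h.atomic ha
  by_cases hF' : First e'
  · exact func_of_first he1' hF' h2
  · rcases h.func a ha with h3 | h3
    · exact h3
    · obtain ⟨hc, -⟩ := h.second hp he he1 hF
      obtain ⟨hc', hf'⟩ := h.second hp he' he1' hF'
      exact func_of_second h.atomic hp he he1 he' he1' hc hc' hf' ha h1 h2 h3

/-- There is a base atom. -/
theorem Good.exists_base {p : ℕ} (hp : p.Prime) (h : Good p A) :
    ∃ e : A, IsAtom e ∧ e ≤ idr ∧ (∀ a : A, IsAtom a → comp e a = a → comp (conv a) a ≤ idr) ∧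
      (Nat.card (GSet e) = p ∨ ∀ g ∈ GSet e, g = e) := by
  by_cases hex : ∃ e : A, IsAtom e ∧ e ≤ idr ∧ ¬ First e
  · obtain ⟨e, he, he1, hF⟩ := hex
    exact ⟨e, he, he1, fun a ha h1 => h.dom_func hp he he1 hF ha h1,
      Or.inl (h.second hp he he1 hF).1⟩
  · push Not at hex
    have hid : (idr : A) ≠ ⊥ := by
      intro h0
      have h1 : (⊤ : A) = ⊥ := by
        rw [← idr_comp (⊤ : A), h0, bot_comp]
      exact h.nontriv h1.symm
    obtain ⟨e, he, he1⟩ := h.atomic _ hid
    refine ⟨e, he, he1, ?_, Or.inr ?_⟩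
    · intro a ha _
      obtain ⟨e', he', he1', h2⟩ := exists_ran h.atomic ha
      exact func_of_first he1' (hex e' he' he1') h2
    · intro g hg
      have h1 : g ≤ e := by
        have := hg.2
        rwa [show comp e (comp ⊤ e) = e from hex e he he1] at this
      exact atom_eq hg.1 he h1

end

section Repr

variable {A : Type u} [RelAlg A]

/-- The set on which the algebra is represented. -/
def XSet (e : A) : Type u := {a : A // IsAtom a ∧ comp e a = a}

/-- The relation represented by an element. -/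
def phi (e : A) (r : A) : Set (XSet e × XSet e) := {q | q.2.1 ≤ comp q.1.1 r}

variable {e : A} (hA : Atomic A) (he : IsAtom e) (he1 : e ≤ idr)
  (hfun : ∀ a : A, IsAtom a → comp e a = a → comp (conv a) a ≤ idr)

include hA in
theorem phi_comp (he1 : e ≤ idr) (r s : A) (q : XSet e × XSet e) :
    q ∈ phi e (comp r s) ↔ ∃ z, (q.1, z) ∈ phi e r ∧ (z, q.2) ∈ phi e s := by
  constructor
  · intro h
    have h' : q.2.1 ≤ comp (comp q.1.1 r) s := by rw [RelAlg.comp_assoc]; exact h
    obtain ⟨b, hb, hb1, hb2⟩ := split_left hA q.2.2.1 h'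
    refine ⟨⟨b, hb, ?_⟩, hb1, hb2⟩
    apply dom_eq he1
    refine hb1.trans ?_
    rw [← q.1.2.2, RelAlg.comp_assoc]
    exact comp_mono_right e le_top
  · rintro ⟨z, h1, h2⟩
    have h2' : q.2.1 ≤ comp z.1 s := h2
    have h1' : z.1 ≤ comp q.1.1 r := h1
    show q.2.1 ≤ comp q.1.1 (comp r s)
    rw [← RelAlg.comp_assoc]
    exact h2'.trans (comp_mono_left h1' s)

theorem phi_conv (r : A) (q : XSet e × XSet e) :
    q ∈ phi e (conv r) ↔ (q.2, q.1) ∈ phi e r := by
  show q.2.1 ≤ comp q.1.1 (conv r) ↔ q.1.1 ≤ comp q.2.1 r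
  rw [cyc_right q.1.2.1 q.2.2.1, RelAlg.conv_conv]

theorem phi_idr (q : XSet e × XSet e) : q ∈ phi e idr ↔ q.1 = q.2 := by
  show q.2.1 ≤ comp q.1.1 idr ↔ q.1 = q.2
  rw [RelAlg.comp_idr]
  constructor
  · intro h
    exact (Subtype.ext (atom_eq q.2.2.1 q.1.2.1 h)).symm
  · intro h
    rw [h]

include hA he1 hfun in
theorem phi_le (he : IsAtom e) (hs : ∀ x : A, x ≠ ⊥ → comp ⊤ (comp x ⊤) = ⊤) (r s : A) :
    phi e r ⊆ phi e s ↔ r ≤ s := by
  constructor
  · intro h
    by_contra hcon
    have h1 : r ⊓ sᶜ ≠ ⊥ := by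
      intro h4
      apply hcon
      rw [← disjoint_iff, disjoint_compl_right_iff] at h4
      exact h4
    have h2 : comp (comp e ⊤) (r ⊓ sᶜ) ≠ ⊥ := by
      intro h3
      have h4 : comp e ⊤ = ⊥ := by
        calc comp e ⊤ = comp e (comp ⊤ (comp (r ⊓ sᶜ) ⊤)) := by rw [hs _ h1]
          _ = comp (comp (comp e ⊤) (r ⊓ sᶜ)) ⊤ := by simp only [RelAlg.comp_assoc]
          _ = ⊥ := by rw [h3, bot_comp]
      have h5 : e ≤ comp e ⊤ := by
        have := comp_mono_right e (le_top : (idr : A) ≤ ⊤)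
        rwa [RelAlg.comp_idr] at this
      exact he.1 (eq_bot_iff.2 (h4 ▸ h5))
    obtain ⟨b, hb, hb1⟩ := hA _ h2
    obtain ⟨a, ha, ha1, ha2⟩ := split_left hA hb hb1
    have hae : comp e a = a := dom_eq he1 ha1
    have hbe : comp e b = b := by
      apply dom_eq he1
      refine hb1.trans ?_
      rw [RelAlg.comp_assoc]
      exact comp_mono_right e le_top
    have h3 : ((⟨a, ha, hae⟩, ⟨b, hb, hbe⟩) : XSet e × XSet e) ∈ phi e r :=
      ha2.trans (comp_mono_right a inf_le_left)
    have h4 : b ≤ comp a s := h h3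
    have h5 : b ≤ comp a sᶜ := ha2.trans (comp_mono_right a inf_le_right)
    exact hb.1 (eq_bot_iff.2 (func_disj (hfun a ha hae) s h4 h5))
  · intro h q hq
    exact le_trans hq (comp_mono_right _ h)

/-- Every element of the group is a function. -/
theorem gset_fun' (he1 : e ≤ idr)
    (hfun : ∀ a : A, IsAtom a → comp e a = a → comp (conv a) a ≤ idr) :
    ∀ g ∈ GSet e, comp (conv g) g ≤ idr :=
  fun g hg => hfun g hg.1 (gset_dom he1 hg)

/-- The group of `e` acts on the set. -/
def actMap (hA : Atomic A) (he : IsAtom e) (he1 : e ≤ idr)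
    (hfun : ∀ a : A, IsAtom a → comp e a = a → comp (conv a) a ≤ idr)
    (g : GSet e) (a : XSet e) : XSet e :=
  ⟨comp g.1 a.1, atom_comp hA he he1 (gset_dom he1 g.2) (gset_fun' he1 hfun _ g.2)
    (hfun _ a.2.1 a.2.2) (comp_ne_bot he g.2.1 a.2.1 (gset_ran he1 g.2) a.2.2), by
    rw [← RelAlg.comp_assoc, gset_dom he1 g.2]⟩

theorem main_repr {p : ℕ} (hp : p.Prime) (hG : Good p A)
    (hcomplete : ∀ S : Set A, ∃ a, IsLUB S a) : InK p A := by
  obtain ⟨e, he, he1, hfun, hcard⟩ := hG.exists_base hp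
  have hA := hG.atomic
  letI grp : Group (GSet e) := gsetGroup hA he he1 (gset_fun' he1 hfun)
  letI act : MulAction (GSet e) (XSet e) :=
    { smul := actMap hA he he1 hfun
      one_smul := fun a => Subtype.ext a.2.2
      mul_smul := fun g h a => Subtype.ext (RelAlg.comp_assoc g.1 h.1 a.1) }
  have hsmul : ∀ (g : GSet e) (a : XSet e), (g • a).1 = comp g.1 a.1 := fun _ _ => rfl
  -- a surjection from the cyclic group of order `p`
  have hsurj : ∃ ψ : Multiplicative (ZMod p) →* GSet e, Function.Surjective ψ := by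
    rcases hcard with hc | hc
    · have : Fact p.Prime := ⟨hp⟩
      have hcyc : IsCyclic (GSet e) := isCyclic_of_prime_card hc
      have e1 := zmodCyclicMulEquiv hcyc
      rw [hc] at e1
      exact ⟨e1.toMonoidHom, e1.surjective⟩
    · refine ⟨1, fun g => ⟨1, ?_⟩⟩
      exact Subtype.ext (hc g.1 g.2).symm
  obtain ⟨ψ, hψ⟩ := hsurj
  letI act2 : MulAction (Multiplicative (ZMod p)) (XSet e) := MulAction.compHom (XSet e) ψ
  have hsmul2 : ∀ (g : Multiplicative (ZMod p)) (a : XSet e), (g • a).1 = comp (ψ g).1 a.1 :=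
    fun _ _ => rfl
  have hcompat : ∀ r : A, phi e r ∈ CRel (Multiplicative (ZMod p)) (XSet e) := by
    intro r g x y h
    have h' : y.1 ≤ comp x.1 r := h
    show (g • y).1 ≤ comp (g • x).1 r
    rw [hsmul2, hsmul2, RelAlg.comp_assoc]
    exact comp_mono_right _ h'
  let Φ : A → CRel (Multiplicative (ZMod p)) (XSet e) := fun r => ⟨phi e r, hcompat r⟩
  have hle : ∀ r s : A, Φ r ≤ Φ s ↔ r ≤ s := fun r s =>
    phi_le hA he1 hfun he hG.simple r s
  have hsur : Function.Surjective Φ := by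
    intro R
    obtain ⟨r, hr⟩ := hcomplete {t | ∃ q ∈ R.1, t = comp (conv q.1.1) q.2.1}
    refine ⟨r, Subtype.ext ?_⟩
    ext ⟨c, d⟩
    constructor
    · intro h
      have h' : d.1 ≤ comp c.1 r := h
      have h2 : ∃ q ∈ R.1, d.1 ≤ comp c.1 (comp (conv q.1.1) q.2.1) := by
        by_contra hcon
        push Not at hcon
        have h3 : comp c.1 r ≤ (d.1)ᶜ := by
          rw [gc_left]
          apply hr.2
          rintro t ⟨q, hq, rfl⟩
          rw [← gc_left, le_compl_iff_disjoint_right]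
          by_contra h4
          exact hcon q hq ((atom_le d.2.1).2 h4)
        exact d.2.1.1 (eq_bot_iff.2 (disjoint_compl_right le_rfl (h'.trans h3)))
      obtain ⟨q, hq, h3⟩ := h2
      rw [← RelAlg.comp_assoc] at h3
      obtain ⟨g, hg, hg1, hg2⟩ := split_left hA d.2.1 h3
      have hge : g ∈ GSet e := by
        refine ⟨hg, hg1.trans ?_⟩
        have a1 : comp (conv q.1.1) e = conv q.1.1 := by
          have := congrArg conv q.1.2.2
          rwa [RelAlg.conv_comp, conv_of_le_idr he1] at this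
        calc comp c.1 (conv q.1.1) = comp e (comp (comp c.1 (conv q.1.1)) e) := by
              rw [RelAlg.comp_assoc, a1, ← RelAlg.comp_assoc, c.2.2]
          _ ≤ comp e (comp ⊤ e) := comp_mono_right e (comp_mono_left le_top e)
      have hd : d = (⟨g, hge⟩ : GSet e) • q.2 := by
        apply Subtype.ext
        exact atom_eq d.2.1 ((⟨g, hge⟩ : GSet e) • q.2).2.1 hg2
      have hc : c = (⟨g, hge⟩ : GSet e) • q.1 := by
        apply Subtype.ext
        refine atom_eq c.2.1 ((⟨g, hge⟩ : GSet e) • q.1).2.1 ?_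
        have h5 := (cyc_right c.2.1 hg (conv q.1.1)).1 hg1
        rwa [RelAlg.conv_conv] at h5
      obtain ⟨g', hg'⟩ := hψ ⟨g, hge⟩
      have h6 := R.2 g' q.1 q.2 hq
      have e1 : g' • q.1 = c := by
        rw [hc, ← hg']; rfl
      have e2 : g' • q.2 = d := by
        rw [hd, ← hg']; rfl
      rw [e1, e2] at h6
      exact h6
    · intro h
      show d.1 ≤ comp c.1 r
      have h1 : comp (conv c.1) d.1 ≤ r := hr.1 ⟨(c, d), h, rfl⟩
      refine le_trans ?_ (comp_mono_right c.1 h1)
      rw [← RelAlg.comp_assoc]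
      calc d.1 = comp e d.1 := d.2.2.symm
        _ ≤ _ := comp_mono_left (dom_le he c.2.1 c.2.2) _
  refine ⟨XSet e, ⟨⟨e, he, comp_self_of_le_idr he1⟩⟩, act2, ⟨?_⟩⟩
  have hinj : Function.Injective Φ := by
    intro r s h
    exact le_antisymm ((hle r s).1 h.le) ((hle s r).1 h.ge)
  exact
    { Equiv.ofBijective Φ ⟨hinj, hsur⟩ with
      map_rel_iff' := fun {r s} => hle r s
      map_comp := by
        intro r s
        apply Subtype.ext
        ext q
        exact phi_comp hA he1 r s q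
      map_conv := by
        intro r
        apply Subtype.ext
        ext q
        exact phi_conv r q
      map_idr := by
        apply Subtype.ext
        ext q
        exact phi_idr q }

end Repr

end Pool.Agent.R619.RA
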